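import Pool.Agent.H81.EH.Model

/-!
# EHP, Step 1, model part: Fubini

`∫ over an arc of gv = mean over θ of the arc integrals of log |z - (2 + 2 cos θ)|`, and the mean of `gv`
over a full circle `|z| = r` is the mean of `log max(r, 2 + 2 cos θ)`.
-/

set_option autoImplicit false

open Complex MeasureTheory Set Real
open scoped Real ComplexConjugate Interval

noncomputable section

namespace Pool.Agent.H81.EH

/-- the points of the model -/
def xv (θ : ℝ) : ℝ := 2 + 2 * Real.cos θ

theorem xv_nonneg (θ : ℝ) : 0 ≤ xv θ := by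
  unfold xv
  linarith [Real.neg_one_le_cos θ]

theorem xv_le (θ : ℝ) : xv θ ≤ 4 := by
  unfold xv
  linarith [Real.cos_le_one θ]

theorem continuous_xv : Continuous xv := by
  unfold xv
  fun_prop

/-- the kernel `log |r e^{iφ} - x|` -/
def lk (r : ℝ) (x φ : ℝ) : ℝ := Real.log ‖circleMap 0 r φ - (x : ℂ)‖

theorem lk_periodic (r x : ℝ) : Function.Periodic (lk r x) (2 * π) := by
  intro φ
  unfold lk
  rw [periodic_circleMap]

theorem lk_intervalIntegrable (r x a b : ℝ) : IntervalIntegrable (lk r x) volume a b := by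
  have h : IntervalIntegrable (lk r x) volume 0 (2 * π) :=
    circleIntegrable_log_norm_sub_const (a := (x : ℂ)) (c := 0) r
  exact (lk_periodic r x).intervalIntegrable₀ (by positivity) h _ _

theorem integral_lk {r : ℝ} (hr : 0 < r) (x : ℝ) :
    ∫ φ in (0 : ℝ)..2 * π, lk r x φ = 2 * π * (Real.log r + Real.posLog (r⁻¹ * |x|)) := by
  have h := circleAverage_log_norm_sub_const_eq_log_radius_add_posLog (a := (x : ℂ)) (c := 0)
    (R := r) hr.ne'
  rw [Real.circleAverage_def, smul_eq_mul, zero_sub, norm_neg, Complex.norm_real,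
    Real.norm_eq_abs] at h
  have hπ : (2 * π) ≠ 0 := by positivity
  field_simp at h
  unfold lk
  rw [h]
  field_simp

theorem abs_log_le_posLog (y : ℝ) : |Real.log y| = 2 * Real.posLog y - Real.log y :=
  (two_mul_posLog y).symm

theorem norm_le_of_circle {r : ℝ} (hr : 0 < r) {x : ℝ} (hx0 : 0 ≤ x) (hx : x ≤ 4) (φ : ℝ) :
    ‖circleMap 0 r φ - (x : ℂ)‖ ≤ r + 4 := by
  refine (norm_sub_le _ _).trans ?_
  rw [norm_circleMap_zero, Complex.norm_real, Real.norm_eq_abs, abs_of_nonneg hx0,
    abs_of_pos hr]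
  linarith

/-- uniform bound of the absolute integral -/
theorem integral_abs_lk_le {r : ℝ} (hr : 0 < r) {x : ℝ} (hx0 : 0 ≤ x) (hx : x ≤ 4) {a b : ℝ}
    (hab : a ≤ b) (hb : b ≤ a + 2 * π) :
    ∫ φ in a..b, |lk r x φ| ≤ 2 * π * (2 * Real.log (r + 4 + 1) + |Real.log r|) := by
  have hper : Function.Periodic (fun φ => |lk r x φ|) (2 * π) := by
    intro φ
    simp only
    rw [lk_periodic r x φ]
  have hI : ∀ a b, IntervalIntegrable (fun φ => |lk r x φ|) volume a b := fun a b =>
    (lk_intervalIntegrable r x a b).abs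
  have h1 : ∫ φ in a..b, |lk r x φ| ≤ ∫ φ in a..(a + 2 * π), |lk r x φ| := by
    rw [← intervalIntegral.integral_add_adjacent_intervals (hI a b) (hI b (a + 2 * π))]
    have : 0 ≤ ∫ φ in b..(a + 2 * π), |lk r x φ| :=
      intervalIntegral.integral_nonneg hb (fun _ _ => abs_nonneg _)
    linarith
  have h2 : ∫ φ in a..(a + 2 * π), |lk r x φ| = ∫ φ in (0 : ℝ)..(2 * π), |lk r x φ| := by
    have := hper.intervalIntegral_add_eq a 0
    simpa using this
  have hlog1 : 0 ≤ Real.log (r + 4 + 1) := Real.log_nonneg (by linarith)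
  have h3 : ∫ φ in (0 : ℝ)..(2 * π), |lk r x φ| ≤
      ∫ φ in (0 : ℝ)..(2 * π), (2 * Real.log (r + 4 + 1) - lk r x φ) := by
    refine intervalIntegral.integral_mono_on (by positivity) (hI _ _)
      ((by simp : IntervalIntegrable (fun _ => 2 * Real.log (r + 4 + 1)) volume 0 (2 * π)).sub
        (lk_intervalIntegrable r x _ _)) ?_
    intro φ _
    unfold lk
    rw [abs_log_le_posLog]
    have h4 : Real.posLog ‖circleMap 0 r φ - (x : ℂ)‖ ≤ Real.log (r + 4 + 1) := by
      have h5 := norm_le_of_circle hr hx0 hx φ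
      have h6 : Real.posLog ‖circleMap 0 r φ - (x : ℂ)‖ ≤ Real.posLog (r + 4 + 1) :=
        Real.posLog_le_posLog (norm_nonneg _) (by linarith)
      rwa [Real.posLog_eq_log (x := r + 4 + 1) (by rw [abs_of_pos (by linarith)]; linarith)] at h6
    linarith
  have h7 : ∫ φ in (0 : ℝ)..(2 * π), (2 * Real.log (r + 4 + 1) - lk r x φ) =
      2 * π * (2 * Real.log (r + 4 + 1)) - 2 * π * (Real.log r + Real.posLog (r⁻¹ * |x|)) := by
    rw [intervalIntegral.integral_sub (by simp) (lk_intervalIntegrable r x _ _),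
      integral_lk hr, intervalIntegral.integral_const]
    simp only [smul_eq_mul]
    ring
  have h8 : 0 ≤ Real.posLog (r⁻¹ * |x|) := Real.posLog_nonneg
  have h9 := neg_abs_le (Real.log r)
  calc ∫ φ in a..b, |lk r x φ| ≤ 2 * π * (2 * Real.log (r + 4 + 1)) -
        2 * π * (Real.log r + Real.posLog (r⁻¹ * |x|)) := by linarith
    _ ≤ _ := by
      have hπ : 0 < 2 * π := by positivity
      nlinarith

theorem measurable_lk2 (r : ℝ) : Measurable (fun p : ℝ × ℝ => lk r (xv p.2) p.1) := by
  unfold lk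
  refine Real.measurable_log.comp ?_
  have : Continuous (fun p : ℝ × ℝ => ‖circleMap 0 r p.1 - (xv p.2 : ℂ)‖) := by
    have h1 : Continuous (circleMap 0 r) := continuous_circleMap 0 r
    have h2 := continuous_xv
    fun_prop
  exact this.measurable

theorem integrable_lk2 {r : ℝ} (hr : 0 < r) {a b : ℝ} (hab : a ≤ b) (hb : b ≤ a + 2 * π) :
    Integrable (fun p : ℝ × ℝ => lk r (xv p.2) p.1)
      ((volume.restrict (Ioc a b)).prod (volume.restrict (Ioc 0 (2 * π)))) := by
  rw [integrable_prod_iff' (measurable_lk2 r).aestronglyMeasurable]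
  constructor
  · refine Filter.Eventually.of_forall fun θ => ?_
    have := (lk_intervalIntegrable r (xv θ) a b).1
    exact this
  · refine Integrable.of_bound
      (C := 2 * π * (2 * Real.log (r + 4 + 1) + |Real.log r|)) ?_ ?_
    · exact (measurable_lk2 r).aestronglyMeasurable.norm.prod_swap.integral_prod_right'
    · refine Filter.Eventually.of_forall fun θ => ?_
      have h1 := integral_abs_lk_le hr (xv_nonneg θ) (xv_le θ) hab hb
      rw [intervalIntegral.integral_of_le hab] at h1
      simp only [Real.norm_eq_abs]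
      rw [abs_of_nonneg (integral_nonneg fun _ => abs_nonneg _)]
      exact h1

/-- **Model identity on arcs.** -/
theorem integral_gv_arc {r : ℝ} (hr : 0 < r) {a b : ℝ} (hab : a ≤ b) (hb : b ≤ a + 2 * π) :
    ∫ φ in a..b, gv (circleMap 0 r φ) =
      (2 * π)⁻¹ * ∫ θ in (0 : ℝ)..2 * π, ∫ φ in a..b, lk r (xv θ) φ := by
  have h0 : (0 : ℝ) ≤ 2 * π := by positivity
  have h1 : ∀ φ, gv (circleMap 0 r φ) = (2 * π)⁻¹ * ∫ θ in (0 : ℝ)..2 * π, lk r (xv θ) φ := by
    intro φ
    have := gv_eq_average (circleMap 0 r φ)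
    unfold lk xv
    rw [this]
    field_simp
  simp_rw [h1]
  rw [intervalIntegral.integral_const_mul]
  congr 1
  simp only [intervalIntegral.integral_of_le hab, intervalIntegral.integral_of_le h0]
  exact integral_integral_swap (integrable_lk2 hr hab hb)

theorem intervalIntegrable_gv {r : ℝ} (hr : 0 < r) {a b : ℝ} (hab : a ≤ b) (hb : b ≤ a + 2 * π) :
    IntervalIntegrable (fun φ => gv (circleMap 0 r φ)) volume a b := by
  have h1 : ∀ φ, gv (circleMap 0 r φ) = (2 * π)⁻¹ * ∫ θ in (0 : ℝ)..2 * π, lk r (xv θ) φ := by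
    intro φ
    have := gv_eq_average (circleMap 0 r φ)
    unfold lk xv
    rw [this]
    field_simp
  simp_rw [h1]
  have h0 : (0 : ℝ) ≤ 2 * π := by positivity
  refine IntervalIntegrable.const_mul ?_ _
  rw [intervalIntegrable_iff_integrableOn_Ioc_of_le hab]
  simp_rw [intervalIntegral.integral_of_le h0]
  exact (integrable_lk2 hr hab hb).integral_prod_left

/-- mean of `gv` over a full circle -/
theorem integral_gv_circle {r : ℝ} (hr : 0 < r) :
    ∫ φ in (0 : ℝ)..2 * π, gv (circleMap 0 r φ) =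
      ∫ θ in (0 : ℝ)..2 * π, Real.log (max r (xv θ)) := by
  rw [integral_gv_arc hr (by positivity) (by linarith), ← intervalIntegral.integral_const_mul]
  refine intervalIntegral.integral_congr fun θ _ => ?_
  rw [integral_lk hr, abs_of_nonneg (xv_nonneg θ)]
  have hπ : (2 * π) ≠ 0 := by positivity
  rw [← mul_assoc, inv_mul_cancel₀ hπ, one_mul]
  rcases le_total (xv θ) r with h | h
  · rw [max_eq_left h]
    have : Real.posLog (r⁻¹ * xv θ) = 0 := by
      rw [Real.posLog_eq_zero_iff, abs_of_nonneg (mul_nonneg (inv_nonneg.2 hr.le) (xv_nonneg θ))]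
      rw [inv_mul_le_iff₀ hr]
      linarith
    rw [this, add_zero]
  · rw [max_eq_right h]
    have hx : 0 < xv θ := lt_of_lt_of_le hr h
    have h2 : 1 ≤ |r⁻¹ * xv θ| := by
      rw [abs_of_nonneg (by positivity), le_inv_mul_iff₀ hr]
      linarith
    rw [Real.posLog_eq_log h2, Real.log_mul (by positivity) hx.ne', Real.log_inv]
    ring

end Pool.Agent.H81.EH
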