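import Pool.Agent.H81.EH.Fub
import Pool.Agent.H58.EH.Kern

/-!
# EHP, Step 1: the model case is an equality

`∫_{-ψ}^{ψ} gv(-r e^{iφ}) dφ = (1/2π) ∫_0^{2π} J r ψ (2 + 2 cos θ) dθ`.
-/

set_option autoImplicit false

open Complex MeasureTheory Set Real
open scoped Real ComplexConjugate Interval

noncomputable section

namespace Pool.Agent.H81.EH

open Pool.Agent.H58.EH (J dd)

theorem lk_add_pi (r x φ : ℝ) : lk r x (φ + π) = (1 / 2) * Real.log (dd r x φ) := by
  unfold lk
  have h1 : circleMap 0 r (φ + π) - (x : ℂ) = -((r * Real.cos φ + x : ℝ) + (r * Real.sin φ : ℝ) * I) := by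
    have : circleMap 0 r (φ + π) = -(r * (Real.cos φ + Real.sin φ * I)) := by
      simp only [circleMap, zero_add]
      rw [Complex.ofReal_add, add_mul, Complex.exp_add, Complex.exp_pi_mul_I, Complex.exp_mul_I]
      push_cast
      ring
    rw [this]
    push_cast
    ring
  rw [h1, norm_neg]
  have h2 : ‖((r * Real.cos φ + x : ℝ) : ℂ) + ((r * Real.sin φ : ℝ) : ℂ) * I‖ =
      Real.sqrt (dd r x φ) := by
    rw [Complex.norm_add_mul_I]
    congr 1
    unfold dd
    nlinarith [Real.sin_sq_add_cos_sq φ]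
  rw [h2, Real.log_sqrt]
  · ring
  · have h3 : dd r x φ = (r * Real.cos φ + x) ^ 2 + (r * Real.sin φ) ^ 2 := by
      unfold dd
      nlinarith [Real.sin_sq_add_cos_sq φ]
    rw [h3]
    positivity

theorem circleMap_add_pi (r φ : ℝ) : circleMap 0 r (φ + π) = -circleMap 0 r φ := by
  simp only [circleMap, zero_add]
  rw [Complex.ofReal_add, add_mul, Complex.exp_add, Complex.exp_pi_mul_I]
  ring

theorem integral_lk_shift (r ψ x : ℝ) : ∫ φ in (π - ψ)..(π + ψ), lk r x φ = J r ψ x := by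
  unfold J
  have h := intervalIntegral.integral_comp_add_right (a := -ψ) (b := ψ) (lk r x) π
  rw [show -ψ + π = π - ψ by ring, show ψ + π = π + ψ by ring] at h
  rw [← h]
  refine intervalIntegral.integral_congr fun φ _ => ?_
  exact lk_add_pi r x φ

/-- **(M3)** -/
theorem integral_gv_J {r ψ : ℝ} (hr : 0 < r) (hψ : 0 ≤ ψ) (hψ' : ψ ≤ π) :
    ∫ φ in (-ψ)..ψ, gv (-(circleMap 0 r φ)) =
      (2 * π)⁻¹ * ∫ θ in (0 : ℝ)..2 * π, J r ψ (2 + 2 * Real.cos θ) := by
  have h := intervalIntegral.integral_comp_add_right (a := -ψ) (b := ψ)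
    (fun φ => gv (circleMap 0 r φ)) π
  rw [show -ψ + π = π - ψ by ring, show ψ + π = π + ψ by ring] at h
  have h1 : ∫ φ in (-ψ)..ψ, gv (-(circleMap 0 r φ)) =
      ∫ φ in (-ψ)..ψ, gv (circleMap 0 r (φ + π)) := by
    refine intervalIntegral.integral_congr fun φ _ => ?_
    simp only [circleMap_add_pi]
  rw [h1, h, integral_gv_arc hr (by linarith) (by linarith)]
  congr 1
  refine intervalIntegral.integral_congr fun θ _ => ?_
  exact integral_lk_shift r ψ (xv θ)

/-- integrability of the model function on arcs, shifted -/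
theorem intervalIntegrable_gv_neg {r ψ : ℝ} (hr : 0 < r) (hψ : 0 ≤ ψ) (hψ' : ψ ≤ π) :
    IntervalIntegrable (fun φ => gv (-(circleMap 0 r φ))) volume (-ψ) ψ := by
  have h := (intervalIntegrable_gv (a := π - ψ) (b := π + ψ) hr (by linarith)
    (by linarith)).comp_add_right π
  rw [show π - ψ - π = -ψ by ring, show π + ψ - π = ψ by ring] at h
  refine h.congr ?_
  intro φ _
  simp only [circleMap_add_pi]

/-- integrability in `θ` of `J r ψ (2 + 2 cos θ)` -/
theorem intervalIntegrable_J {r ψ : ℝ} (hr : 0 < r) (hψ : 0 ≤ ψ) (hψ' : ψ ≤ π) :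
    IntervalIntegrable (fun θ => J r ψ (2 + 2 * Real.cos θ)) volume 0 (2 * π) := by
  have h0 : (0 : ℝ) ≤ 2 * π := by positivity
  rw [intervalIntegrable_iff_integrableOn_Ioc_of_le h0]
  have h := (integrable_lk2 hr (a := π - ψ) (b := π + ψ) (by linarith)
    (by linarith)).swap.integral_prod_left
  refine h.congr ?_
  refine Filter.Eventually.of_forall fun θ => ?_
  have := integral_lk_shift r ψ (xv θ)
  rw [intervalIntegral.integral_of_le (by linarith)] at this
  simpa [xv] using this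

/-- `(M2)` -/
theorem integral_gv_full {s : ℝ} (hs : 0 < s) :
    (2 * π)⁻¹ * ∫ φ in (0 : ℝ)..2 * π, gv (circleMap 0 s φ) =
      (2 * π)⁻¹ * ∫ θ in (0 : ℝ)..2 * π, Real.log (max s (2 + 2 * Real.cos θ)) := by
  rw [integral_gv_circle hs]
  rfl

end Pool.Agent.H81.EH
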