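import Mathlib

/-!
# EHP, Step 1, model part

`gv z = arcosh ((|z| + |z - 4|)/4)` is the Green function of the complement of `[0,4]`. It is the mean
over `θ` of `log |z - (2 + 2 cos θ)|`.
-/

set_option autoImplicit false

open Complex MeasureTheory Set Real
open scoped Real ComplexConjugate Interval

noncomputable section

namespace Pool.Agent.H81.EH

/-- the Green function of the complement of the segment `[0,4]` -/
def gv (z : ℂ) : ℝ := Real.arcosh ((‖z‖ + ‖z - 4‖) / 4)

/-- the Joukowski coordinate -/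
theorem exists_jou (z : ℂ) : ∃ w : ℂ, w ≠ 0 ∧ z = w + w⁻¹ + 2 := by
  obtain ⟨s, hs⟩ := IsAlgClosed.exists_pow_nat_eq ((z - 2) ^ 2 - 4) (n := 2) (by norm_num)
  have hmul : ((z - 2) + s) * ((z - 2) - s) = 4 := by linear_combination (-1) * hs
  have h1 : (z - 2) + s ≠ 0 := by
    intro h
    rw [h, zero_mul] at hmul
    norm_num at hmul
  refine ⟨((z - 2) + s) / 2, div_ne_zero h1 two_ne_zero, ?_⟩
  rw [inv_div]
  field_simp
  linear_combination (-1 : ℂ) * hs

theorem norm_add_norm {w : ℂ} (hw : w ≠ 0) :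
    (‖w + w⁻¹ + 2‖ + ‖w + w⁻¹ + 2 - 4‖) / 4 = Real.cosh (Real.log ‖w‖) := by
  have hw' : 0 < ‖w‖ := norm_pos_iff.2 hw
  have h1 : w + w⁻¹ + 2 = (w + 1) ^ 2 / w := by field_simp; ring
  have h2 : w + w⁻¹ + 2 - 4 = (w - 1) ^ 2 / w := by field_simp; ring
  rw [h2, h1, norm_div, norm_div, norm_pow, norm_pow, Real.cosh_eq, Real.exp_log hw',
    Real.exp_neg, Real.exp_log hw']
  have h3 : ‖w + 1‖ ^ 2 + ‖w - 1‖ ^ 2 = 2 * (‖w‖ ^ 2 + 1) := by
    have := parallelogram_law_with_norm ℝ w 1
    simp only [norm_one] at this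
    nlinarith
  field_simp
  nlinarith

theorem gv_jou {w : ℂ} (hw : w ≠ 0) : gv (w + w⁻¹ + 2) = |Real.log ‖w‖| := by
  unfold gv
  rw [norm_add_norm hw, ← Real.cosh_abs, Real.arcosh_cosh (abs_nonneg _)]

theorem gv_nonneg (z : ℂ) : 0 ≤ gv z := by
  obtain ⟨w, hw, rfl⟩ := exists_jou z
  rw [gv_jou hw]
  exact abs_nonneg _

theorem two_mul_posLog (x : ℝ) : 2 * Real.posLog x - Real.log x = |Real.log x| := by
  change 2 * (max 0 (Real.log x)) - Real.log x = |Real.log x|
  rcases le_total 0 (Real.log x) with h | h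
  · rw [max_eq_right h, abs_of_nonneg h]; ring
  · rw [max_eq_left h, abs_of_nonpos h]; ring

/-- **Model identity.** -/
theorem gv_eq_average (z : ℂ) :
    ∫ θ in (0 : ℝ)..2 * π, Real.log ‖z - ((2 + 2 * Real.cos θ : ℝ) : ℂ)‖ = 2 * π * gv z := by
  obtain ⟨w, hw, rfl⟩ := exists_jou z
  rw [gv_jou hw, ← two_mul_posLog]
  have hw' : 0 < ‖w‖ := norm_pos_iff.2 hw
  have hJ := circleAverage_log_norm_sub_const_eq_posLog (a := w)
  rw [Real.circleAverage_def] at hJ
  have hJ' : ∫ θ in (0 : ℝ)..2 * π, Real.log ‖circleMap 0 1 θ - w‖ = 2 * π * Real.posLog ‖w‖ := by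
    rw [smul_eq_mul] at hJ
    have hπ : (2 * π) ≠ 0 := by positivity
    field_simp at hJ
    linarith
  have hneg : ∫ θ in (0 : ℝ)..2 * π, Real.log ‖circleMap 0 1 (-θ) - w‖ = 2 * π * Real.posLog ‖w‖ := by
    rw [← hJ']
    have h1 := intervalIntegral.integral_comp_neg (a := 0) (b := 2 * π)
      (fun θ => Real.log ‖circleMap 0 1 θ - w‖)
    rw [h1, neg_zero]
    have hper : Function.Periodic (fun θ => Real.log ‖circleMap 0 1 θ - w‖) (2 * π) := by
      intro θ
      simp only
      rw [periodic_circleMap]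
    have := hper.intervalIntegral_add_eq (-(2 * π)) 0
    simpa using this
  have hint : IntervalIntegrable (fun θ => Real.log ‖circleMap 0 1 θ - w‖) volume 0 (2 * π) :=
    circleIntegrable_log_norm_sub_const (a := w) (c := 0) 1
  have hint' : IntervalIntegrable (fun θ => Real.log ‖circleMap 0 1 (-θ) - w‖) volume 0 (2 * π) := by
    have h0 : IntervalIntegrable (fun θ => Real.log ‖circleMap 0 1 θ - w‖) volume (-(2 * π)) 0 := by
      have hper : Function.Periodic (fun θ => Real.log ‖circleMap 0 1 θ - w‖) (2 * π) := by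
        intro θ
        simp only
        rw [periodic_circleMap]
      exact hper.intervalIntegrable₀ (by positivity) hint _ _
    have := h0.comp_mul_left (c := -1)
    simpa using this.symm
  have hae : ∀ᵐ θ ∂volume, θ ∈ Ι (0 : ℝ) (2 * π) →
      Real.log ‖w + w⁻¹ + 2 - ((2 + 2 * Real.cos θ : ℝ) : ℂ)‖ =
        Real.log ‖circleMap 0 1 θ - w‖ + Real.log ‖circleMap 0 1 (-θ) - w‖ - Real.log ‖w‖ := by
    have hc1 : (circleMap 0 1 ⁻¹' {w}).Countable :=
      (countable_singleton w).preimage_circleMap 0 one_ne_zero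
    have hc2 : ((fun θ : ℝ => -θ) ⁻¹' (circleMap 0 1 ⁻¹' {w})).Countable :=
      hc1.preimage_of_injOn (neg_injective.injOn)
    filter_upwards [hc1.ae_notMem volume, hc2.ae_notMem volume] with θ h1 h2 _
    have h1' : circleMap 0 1 θ - w ≠ 0 := fun h => h1 (sub_eq_zero.1 h)
    have h2' : circleMap 0 1 (-θ) - w ≠ 0 := fun h => h2 (sub_eq_zero.1 h)
    have hid : w + w⁻¹ + 2 - ((2 + 2 * Real.cos θ : ℝ) : ℂ) =
        (circleMap 0 1 θ - w) * (circleMap 0 1 (-θ) - w) / w := by
      have hcos : (2 : ℂ) * (Real.cos θ : ℂ) = circleMap 0 1 θ + circleMap 0 1 (-θ) := by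
        rw [Complex.ofReal_cos, Complex.two_cos]
        simp [circleMap]
      have hmul : circleMap 0 1 θ * circleMap 0 1 (-θ) = 1 := by
        simp [circleMap, ← Complex.exp_add]
      push_cast
      field_simp
      push_cast at hcos
      linear_combination (-w) * hcos - hmul
    rw [hid, norm_div, norm_mul, Real.log_div (by positivity) hw'.ne',
      Real.log_mul (norm_ne_zero_iff.2 h1') (norm_ne_zero_iff.2 h2')]
  rw [intervalIntegral.integral_congr_ae hae, intervalIntegral.integral_sub (hint.add hint') (by simp),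
    intervalIntegral.integral_add hint hint', hJ', hneg, intervalIntegral.integral_const]
  simp only [smul_eq_mul]
  ring

end Pool.Agent.H81.EH
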